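import Pool.Agent.N167.DY.Stm

/-! DY/6 (project of helper167): limit of the truncated solutions. -/

namespace Pool.Agent.N891.DYLimit

open Set Filter Topology MeasureTheory
open Pool.Agent.N167.DY

lemma kk_nonneg (β : ℝ) (n : ℕ) : 0 ≤ kk β n := by
  unfold kk; positivity

/-- the comparison error tends to zero. -/
lemma eta_tendsto (β : ℝ) (a : ℕ → ℝ) (ha0 : ∀ n, 0 ≤ a n) (ha : Rapid a) :
    Tendsto (fun N : ℕ => (2 : ℝ)⁻¹ ^ N * kk β N * a N * a N * (a (N + 1) + a (N + 1))) atTop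
      (𝓝 0) := by
  obtain ⟨C, hC⟩ := ha β
  obtain ⟨D, hD⟩ := ha 0
  have hD' : ∀ n, a n ≤ D := by
    intro n
    have := hD n
    simpa using this
  have hD0 : 0 ≤ D := (ha0 0).trans (hD' 0)
  have hC' : ∀ n, kk β n * a n ≤ C := fun n => hC n
  have hC0 : 0 ≤ C := (mul_nonneg (kk_nonneg β 0) (ha0 0)).trans (hC' 0)
  have hlim : Tendsto (fun N : ℕ => (2 : ℝ)⁻¹ ^ N * (C * D * (D + D))) atTop (𝓝 0) := by
    have := (tendsto_pow_atTop_nhds_zero_of_lt_one (r := (2 : ℝ)⁻¹) (by norm_num)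
      (by norm_num)).mul_const (C * D * (D + D))
    simpa using this
  refine squeeze_zero (fun N => ?_) (fun N => ?_) hlim
  · have h1 := kk_nonneg β N
    have h2 := ha0 N
    have h3 := ha0 (N + 1)
    positivity
  · have h1 : kk β N * a N * a N ≤ C * D :=
      mul_le_mul (hC' N) (hD' N) (ha0 N) hC0
    have h2 : a (N + 1) + a (N + 1) ≤ D + D := add_le_add (hD' _) (hD' _)
    have h3 : kk β N * a N * a N * (a (N + 1) + a (N + 1)) ≤ C * D * (D + D) :=
      mul_le_mul h1 h2 (add_nonneg (ha0 _) (ha0 _)) (by positivity)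
    calc (2 : ℝ)⁻¹ ^ N * kk β N * a N * a N * (a (N + 1) + a (N + 1))
        = (2 : ℝ)⁻¹ ^ N * (kk β N * a N * a N * (a (N + 1) + a (N + 1))) := by ring
      _ ≤ (2 : ℝ)⁻¹ ^ N * (C * D * (D + D)) := by gcongr

/-- comparison of two truncations -/
lemma compare (hpsi : S_psi) (β ν : ℝ) (f : ℕ → ℝ → ℝ) (x a : ℕ → ℝ) (N₀ : ℕ)
    (X : ℕ → ℕ → ℝ → ℝ) (hν : 0 < ν)
    (ha0 : ∀ n, 0 ≤ a n)
    (hinit : ∀ N, N₀ ≤ N → ∀ n, n ≤ N → X N n 0 = x n)
    (hsol : ∀ N : ℕ, N₀ ≤ N → SolUpTo β ν f N N (X N))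
    (hbd : ∀ N : ℕ, N₀ ≤ N → ∀ n, ∀ t ∈ Icc (0 : ℝ) N, 0 ≤ X N n t ∧ X N n t ≤ a n)
    (N M : ℕ) (hN : N₀ ≤ N) (hM : N ≤ M) (n : ℕ) (hn : n ≤ N) (t : ℝ) (ht : t ∈ Icc (0 : ℝ) N) :
    (X N n t - X M n t) ^ 2 ≤
      2 ^ n * (2 * ((2 : ℝ)⁻¹ ^ N * kk β N * a N * a N * (a (N + 1) + a (N + 1))) * t) := by
  have hNM : (N : ℝ) ≤ M := by exact_mod_cast hM
  have hsub : Icc (0 : ℝ) N ⊆ Icc (0 : ℝ) M := Icc_subset_Icc le_rfl hNM
  have key := hpsi β ν f N N
    ((2 : ℝ)⁻¹ ^ N * kk β N * a N * a N * (a (N + 1) + a (N + 1))) (X N) (X M) hν.le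
    (Nat.cast_nonneg N) (hsol N hN)
    (fun m hm s hs => (hsol M (hN.trans hM) m (hm.trans hM) s (hsub hs)).mono hsub)
    (fun m _ s hs => ⟨(hbd N hN m s hs).1, (hbd M (hN.trans hM) m s (hsub hs)).1⟩)
    (fun m hm => by rw [hinit N hN m hm, hinit M (hN.trans hM) m (hm.trans hM)])
    (fun s hs => by
      have e1 := hbd N hN N s hs
      have e2 := hbd M (hN.trans hM) N s (hsub hs)
      have e3 := hbd N hN (N + 1) s hs
      have e4 := hbd M (hN.trans hM) (N + 1) s (hsub hs)
      have hk := kk_nonneg β N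
      have haN := ha0 N
      have h1 : (2 : ℝ)⁻¹ ^ N * kk β N * X N N s ≤ (2 : ℝ)⁻¹ ^ N * kk β N * a N :=
        mul_le_mul_of_nonneg_left e1.2 (by positivity)
      have h2 : (2 : ℝ)⁻¹ ^ N * kk β N * X N N s * X M N s ≤
          (2 : ℝ)⁻¹ ^ N * kk β N * a N * a N :=
        mul_le_mul h1 e2.2 e2.1 (by positivity)
      exact mul_le_mul h2 (add_le_add e3.2 e4.2) (add_nonneg e3.1 e4.1) (by positivity))
    t ht
  have hsingle : (2 : ℝ)⁻¹ ^ n * (X N n t - X M n t) ^ 2 ≤
      ∑ m ∈ Finset.range (N + 1), (2 : ℝ)⁻¹ ^ m * (X N m t - X M m t) ^ 2 :=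
    Finset.single_le_sum (f := fun m => (2 : ℝ)⁻¹ ^ m * (X N m t - X M m t) ^ 2)
      (fun m _ => by positivity) (Finset.mem_range.2 (by omega))
  have h2 := hsingle.trans key
  have h3 : (X N n t - X M n t) ^ 2 = 2 ^ n * ((2 : ℝ)⁻¹ ^ n * (X N n t - X M n t) ^ 2) := by
    rw [← mul_assoc, ← mul_pow]; norm_num
  rw [h3]
  exact mul_le_mul_of_nonneg_left h2 (by positivity)

theorem limit : S_limit := by
  intro hpsi β ν f x a N₀ X hν hrap hf hinit hsol _ hbd
  have ha0 : ∀ n, 0 ≤ a n := by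
    intro n
    have := hbd N₀ le_rfl n 0 ⟨le_rfl, Nat.cast_nonneg _⟩
    exact this.1.trans this.2
  have heta := eta_tendsto β a ha0 hrap
  -- uniform Cauchy
  have hcau : ∀ (n : ℕ) (T : ℝ), UniformCauchySeqOn (fun N => X N n) atTop (Icc 0 T) := by
    intro n T
    rw [Metric.uniformCauchySeqOn_iff]
    intro ε hε
    have hlim : Tendsto (fun N : ℕ => 2 ^ n * (2 *
        ((2 : ℝ)⁻¹ ^ N * kk β N * a N * a N * (a (N + 1) + a (N + 1))) * (max T 0))) atTop
        (𝓝 0) := by
      have := ((heta.const_mul 2).mul_const (max T 0)).const_mul ((2 : ℝ) ^ n)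
      simpa using this
    have hev := hlim.eventually (gt_mem_nhds (show (0 : ℝ) < (ε / 2) ^ 2 by positivity))
    obtain ⟨K, hK⟩ := (hev.and (eventually_ge_atTop (max (max N₀ n) ⌈T⌉₊))).exists
    obtain ⟨hK1, hK2⟩ := hK
    have hKN : N₀ ≤ K := le_trans (le_trans (le_max_left _ _) (le_max_left _ _)) hK2
    have hKn : n ≤ K := le_trans (le_trans (le_max_right _ _) (le_max_left _ _)) hK2
    have hKT : T ≤ K := le_trans (Nat.le_ceil T) (by exact_mod_cast le_trans (le_max_right _ _) hK2)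
    have hmain : ∀ m, K ≤ m → ∀ t ∈ Icc (0 : ℝ) T, |X K n t - X m n t| < ε / 2 := by
      intro m hm t ht
      have htK : t ∈ Icc (0 : ℝ) K := ⟨ht.1, ht.2.trans hKT⟩
      have h1 := compare hpsi β ν f x a N₀ X hν ha0 hinit hsol hbd K m hKN hm n hKn t htK
      have hη0 : 0 ≤ (2 : ℝ)⁻¹ ^ K * kk β K * a K * a K * (a (K + 1) + a (K + 1)) := by
        have h1 := kk_nonneg β K
        have h2 := ha0 K
        have h3 := ha0 (K + 1)
        positivity
      have h2 : 2 ^ n * (2 * ((2 : ℝ)⁻¹ ^ K * kk β K * a K * a K * (a (K + 1) + a (K + 1))) * t) ≤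
        2 ^ n * (2 * ((2 : ℝ)⁻¹ ^ K * kk β K * a K * a K * (a (K + 1) + a (K + 1))) * max T 0) := by
        gcongr
        exact ht.2.trans (le_max_left _ _)
      have h3 : (X K n t - X m n t) ^ 2 < (ε / 2) ^ 2 := lt_of_le_of_lt (h1.trans h2) hK1
      exact abs_lt_of_sq_lt_sq h3 (by positivity)
    refine ⟨K, fun m hm m' hm' t ht => ?_⟩
    have h1 := hmain m hm t ht
    have h2 := hmain m' hm' t ht
    rw [Real.dist_eq]
    calc |X m n t - X m' n t| = |(X K n t - X m' n t) - (X K n t - X m n t)| := by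
          congr 1; ring
      _ ≤ |X K n t - X m' n t| + |X K n t - X m n t| := abs_sub _ _
      _ < ε / 2 + ε / 2 := add_lt_add h2 h1
      _ = ε := by ring
  -- the limit
  have hex : ∀ (n : ℕ) (t : ℝ), 0 ≤ t → ∃ y, Tendsto (fun N => X N n t) atTop (𝓝 y) := by
    intro n t ht
    exact cauchySeq_tendsto_of_complete ((hcau n t).cauchySeq ⟨ht, le_rfl⟩)
  choose! Y hY using hex
  have hunif : ∀ (n : ℕ) (T : ℝ), TendstoUniformlyOn (fun N => X N n) (Y n) atTop (Icc 0 T) :=
    fun n T => (hcau n T).tendstoUniformlyOn_of_tendsto (fun t ht => hY n t ht.1)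
  have hXcont : ∀ N : ℕ, N₀ ≤ N → ∀ n, n ≤ N → ContinuousOn (X N n) (Icc (0 : ℝ) N) :=
    fun N hN n hn t ht => (hsol N hN n hn t ht).continuousWithinAt
  have hYcontT : ∀ (n : ℕ) (T : ℝ), ContinuousOn (Y n) (Icc 0 T) := by
    intro n T
    refine (hunif n T).continuousOn ?_
    refine (Eventually.frequently ?_)
    filter_upwards [eventually_ge_atTop (max (max N₀ n) ⌈T⌉₊)] with N hN
    have hKN : N₀ ≤ N := le_trans (le_trans (le_max_left _ _) (le_max_left _ _)) hN
    have hKn : n ≤ N := le_trans (le_trans (le_max_right _ _) (le_max_left _ _)) hN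
    have hKT : T ≤ N := le_trans (Nat.le_ceil T) (by exact_mod_cast le_trans (le_max_right _ _) hN)
    exact (hXcont N hKN n hKn).mono (Icc_subset_Icc le_rfl hKT)
  have hYcont : ∀ n : ℕ, ContinuousOn (Y n) (Ici 0) := by
    intro n t ht
    have ht' : t ∈ Icc (0 : ℝ) (t + 1) := ⟨ht, by linarith⟩
    have h := hYcontT n (t + 1) t ht'
    refine h.mono_of_mem_nhdsWithin ?_
    have : Icc (0 : ℝ) (t + 1) = Ici 0 ∩ Iic (t + 1) := by ext; simp
    rw [this]
    exact inter_mem self_mem_nhdsWithin (mem_nhdsWithin_of_mem_nhds (Iic_mem_nhds (by linarith)))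
  have hYbd : ∀ n, ∀ t, 0 ≤ t → 0 ≤ Y n t ∧ Y n t ≤ a n := by
    intro n t ht
    have hev : ∀ᶠ N : ℕ in atTop, 0 ≤ X N n t ∧ X N n t ≤ a n := by
      filter_upwards [eventually_ge_atTop (max N₀ ⌈t⌉₊)] with N hN
      exact hbd N ((le_max_left _ _).trans hN) n t
        ⟨ht, (Nat.le_ceil t).trans (by exact_mod_cast (le_max_right _ _).trans hN)⟩
    exact ⟨ge_of_tendsto (hY n t ht) (hev.mono fun _ h => h.1),
      le_of_tendsto (hY n t ht) (hev.mono fun _ h => h.2)⟩
  have hY0 : ∀ n, Y n 0 = x n := by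
    intro n
    refine tendsto_nhds_unique (hY n 0 le_rfl) ?_
    refine tendsto_const_nhds.congr' ?_
    filter_upwards [eventually_ge_atTop (max N₀ n)] with N hN
    exact (hinit N ((le_max_left _ _).trans hN) n ((le_max_right _ _).trans hN)).symm
  -- continuity of the right-hand side
  have hrhscont : ∀ (S : Set ℝ) (Z : ℕ → ℝ → ℝ) (n : ℕ), ContinuousOn (f n) S →
      (∀ m, m ≤ n + 1 → ContinuousOn (Z m) S) →
      ContinuousOn (fun s => rhs β ν (fun m => f m s) (fun m => Z m s) n) S := by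
    intro S Z n hfS hZ
    have h1 := hZ n (by omega)
    have h2 := hZ (n + 1) le_rfl
    have h3 : ContinuousOn (fun s => inflow β (fun m => Z m s) n) S := by
      cases n with
      | zero => exact continuousOn_const
      | succ k =>
        have := hZ k (by omega)
        simp only [inflow]
        fun_prop
    unfold rhs
    fun_prop
  refine ⟨Y, ⟨hY0, ?_⟩, hYbd⟩
  intro n t ht
  set G : ℝ → ℝ := fun s => rhs β ν (fun m => f m s) (fun m => Y m s) n with hG
  have hGcont : ContinuousOn G (Ici 0) := hrhscont (Ici 0) Y n (hf n) (fun m _ => hYcont m)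
  -- integral equation
  have hint : ∀ t, 0 ≤ t → Y n t = x n + ∫ s in (0 : ℝ)..t, G s := by
    intro t ht
    have hbig : ∀ᶠ N : ℕ in atTop, N₀ ≤ N ∧ n + 1 ≤ N ∧ t ≤ N := by
      filter_upwards [eventually_ge_atTop (max (max N₀ (n + 1)) ⌈t⌉₊)] with N hN
      exact ⟨le_trans (le_trans (le_max_left _ _) (le_max_left _ _)) hN,
        le_trans (le_trans (le_max_right _ _) (le_max_left _ _)) hN,
        le_trans (Nat.le_ceil t) (by exact_mod_cast le_trans (le_max_right _ _) hN)⟩
    have hgcont : ∀ᶠ N : ℕ in atTop, ContinuousOn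
        (fun s => rhs β ν (fun m => f m s) (fun m => X N m s) n) (Icc 0 t) := by
      filter_upwards [hbig] with N hN
      exact hrhscont _ _ _ ((hf n).mono (fun s hs => hs.1)) (fun m hm =>
        (hXcont N hN.1 m (hm.trans hN.2.1)).mono (Icc_subset_Icc le_rfl hN.2.2))
    have heq : ∀ᶠ N : ℕ in atTop, X N n t - x n =
        ∫ s in (0 : ℝ)..t, rhs β ν (fun m => f m s) (fun m => X N m s) n := by
      filter_upwards [hbig, hgcont] with N hN hc
      rw [← hinit N hN.1 n ((Nat.le_succ n).trans hN.2.1)]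
      symm
      apply intervalIntegral.integral_eq_sub_of_hasDerivAt_of_le ht
      · exact (hXcont N hN.1 n ((Nat.le_succ n).trans hN.2.1)).mono
          (Icc_subset_Icc le_rfl hN.2.2)
      · intro s hs
        refine (hsol N hN.1 n ((Nat.le_succ n).trans hN.2.1) s
          ⟨hs.1.le, hs.2.le.trans hN.2.2⟩).hasDerivAt ?_
        exact Icc_mem_nhds hs.1 (lt_of_lt_of_le hs.2 hN.2.2)
      · exact hc.intervalIntegrable_of_Icc ht
    have hlimint : Tendsto (fun N : ℕ =>
        ∫ s in (0 : ℝ)..t, rhs β ν (fun m => f m s) (fun m => X N m s) n) atTop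
        (𝓝 (∫ s in (0 : ℝ)..t, G s)) := by
      have hrb : ∃ B : ℝ, ∀ (Z : ℕ → ℝ) (F : ℕ → ℝ), (∀ m, 0 ≤ Z m ∧ Z m ≤ a m) →
          |rhs β ν F Z n| ≤ |F n| + B := by
        have hin : ∃ B : ℝ, ∀ (Z : ℕ → ℝ), (∀ m, 0 ≤ Z m ∧ Z m ≤ a m) →
            |inflow β Z n| ≤ B := by
          cases n with
          | zero => exact ⟨0, fun Z _ => by simp [inflow]⟩
          | succ k =>
            refine ⟨kk β k * a k ^ 2, fun Z hZ => ?_⟩
            simp only [inflow]
            rw [abs_of_nonneg (mul_nonneg (kk_nonneg β k) (sq_nonneg _))]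
            exact mul_le_mul_of_nonneg_left (pow_le_pow_left₀ (hZ k).1 (hZ k).2 2)
              (kk_nonneg β k)
        obtain ⟨B, hB⟩ := hin
        refine ⟨ν * 4 ^ n * a n + B + kk β n * a n * a (n + 1), fun Z F hZ => ?_⟩
        unfold rhs
        have h1 := hB Z hZ
        have h2 : |ν * 4 ^ n * Z n| ≤ ν * 4 ^ n * a n := by
          rw [abs_of_nonneg (mul_nonneg (by positivity) (hZ n).1)]
          exact mul_le_mul_of_nonneg_left (hZ n).2 (by positivity)
        have h3 : |kk β n * Z n * Z (n + 1)| ≤ kk β n * a n * a (n + 1) := by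
          have hk := kk_nonneg β n
          have hz1 := (hZ n).1
          have hz2 := (hZ (n + 1)).1
          rw [abs_of_nonneg (by positivity)]
          exact mul_le_mul (mul_le_mul_of_nonneg_left (hZ n).2 hk) (hZ (n + 1)).2 hz2
            (mul_nonneg hk (ha0 n))
        have h4 := abs_sub (F n - ν * 4 ^ n * Z n + inflow β Z n) (kk β n * Z n * Z (n + 1))
        have h5 := abs_add_le (F n - ν * 4 ^ n * Z n) (inflow β Z n)
        have h6 := abs_sub (F n) (ν * 4 ^ n * Z n)
        linarith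
      obtain ⟨B, hB⟩ := hrb
      apply intervalIntegral.tendsto_integral_filter_of_dominated_convergence
        (fun s => |f n s| + B)
      · filter_upwards [hgcont] with N hc
        rw [uIoc_of_le ht]
        exact (hc.mono Ioc_subset_Icc_self).aestronglyMeasurable measurableSet_Ioc
      · filter_upwards [hbig] with N hN
        refine Eventually.of_forall fun s hs => ?_
        rw [uIoc_of_le ht] at hs
        exact hB _ _ (fun m => hbd N hN.1 m s ⟨hs.1.le, hs.2.trans hN.2.2⟩)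
      · apply ContinuousOn.intervalIntegrable_of_Icc ht
        have : ContinuousOn (f n) (Icc 0 t) := (hf n).mono (fun s hs => hs.1)
        fun_prop
      · refine Eventually.of_forall fun s hs => ?_
        rw [uIoc_of_le ht] at hs
        have hs0 : 0 ≤ s := hs.1.le
        have h1 := hY n s hs0
        have h2 := hY (n + 1) s hs0
        have h3 : Tendsto (fun N : ℕ => inflow β (fun m => X N m s) n) atTop
            (𝓝 (inflow β (fun m => Y m s) n)) := by
          cases n with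
          | zero => exact tendsto_const_nhds
          | succ k =>
            simp only [inflow]
            exact ((hY k s hs0).pow 2).const_mul _
        simp only [hG]
        unfold rhs
        exact ((tendsto_const_nhds.sub (h1.const_mul _)).add h3).sub ((h1.const_mul _).mul h2)
    have hl1 : Tendsto (fun N : ℕ => X N n t - x n) atTop (𝓝 (Y n t - x n)) :=
      (hY n t ht).sub_const _
    have := tendsto_nhds_unique (hl1.congr' heq) hlimint
    linarith
  -- differentiate
  set G' : ℝ → ℝ := fun s => G (max s 0) with hG'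
  have hG'cont : Continuous G' := by
    rw [← continuousOn_univ]
    exact hGcont.comp (by fun_prop) (fun s _ => mem_Ici.2 (le_max_right _ _))
  have hder : HasDerivAt (fun t => x n + ∫ s in (0 : ℝ)..t, G' s) (G' t) t := by
    have := (intervalIntegral.integral_hasDerivAt_right (hG'cont.intervalIntegrable 0 t)
      (hG'cont.stronglyMeasurableAtFilter _ _) hG'cont.continuousAt).const_add (x n)
    exact this
  have hcongr : ∀ t, 0 ≤ t → Y n t = x n + ∫ s in (0 : ℝ)..t, G' s := by
    intro t ht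
    rw [hint t ht]
    congr 1
    apply intervalIntegral.integral_congr
    intro s hs
    rw [uIcc_of_le ht] at hs
    simp only [hG']
    rw [max_eq_left hs.1]
  have hfin : HasDerivWithinAt (Y n) (G' t) (Ici 0) t :=
    hder.hasDerivWithinAt.congr (fun s hs => hcongr s hs) (hcongr t ht)
  have : G' t = G t := by simp only [hG']; rw [max_eq_left ht]
  rw [this] at hfin
  exact hfin

end Pool.Agent.N891.DYLimit
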