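import Pool.Agent.N375.RF.Stm

/-! RF/SmallCore (project of helper375): few members have a small core. -/

set_option autoImplicit false

namespace Pool.Agent.N891.RFSmallCore

open Finset Classical
open Pool.Agent.N375.RF

noncomputable section

/-- the functions which fix `C` -/
def FX {n : ℕ} (C : Finset (Fin n)) : Finset (Fin n → Fin n) :=
  Fintype.piFinset (fun x => if x ∈ C then {x} else univ)

theorem card_FX {n : ℕ} (C : Finset (Fin n)) : (FX C).card = n ^ (n - C.card) := by
  unfold FX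
  rw [Fintype.card_piFinset]
  have h1 : ∀ x : Fin n, (if x ∈ C then ({x} : Finset (Fin n)) else univ).card =
      if x ∈ Cᶜ then n else 1 := by
    intro x
    by_cases hx : x ∈ C
    · simp [hx]
    · simp [hx]
  rw [Finset.prod_congr rfl fun x _ => h1 x, Finset.prod_ite_mem, Finset.univ_inter,
    Finset.prod_const, Finset.card_compl, Fintype.card_fin]

/-- the embedding with image `C` -/
def em {n : ℕ} (C : Finset (Fin n)) : Fin C.card ↪ Fin n :=
  (C.equivFin.symm.toEmbedding).trans (Function.Embedding.subtype _)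

theorem em_mem {n : ℕ} (C : Finset (Fin n)) (i : Fin C.card) : em C i ∈ C :=
  (C.equivFin.symm i).2

theorem em_surj {n : ℕ} (C : Finset (Fin n)) (x : Fin n) (hx : x ∈ C) : ∃ i, em C i = x :=
  ⟨C.equivFin ⟨x, hx⟩, by simp [em]⟩

/-- the graphs with core `C` -/
def TC (P : (n : ℕ) → Set (SimpleGraph (Fin n))) {n : ℕ} (C : Finset (Fin n)) :
    Finset (SimpleGraph (Fin n)) :=
  ((Set.toFinite (P C.card)).toFinset ×ˢ FX C).image (fun q => GG (q.1.map (em C)) q.2)

theorem card_TC (P : (n : ℕ) → Set (SimpleGraph (Fin n))) {n : ℕ} (C : Finset (Fin n)) :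
    (TC P C).card ≤ (P C.card).ncard * n ^ (n - C.card) := by
  unfold TC
  refine card_image_le.trans ?_
  rw [card_product, card_FX, Set.ncard_eq_toFinset_card (P C.card) (Set.toFinite _)]

theorem count (hcore : StCore) (P : (n : ℕ) → Set (SimpleGraph (Fin n))) (hP : LeafClosed P)
    (n : ℕ) (m : ℝ) :
    ({G | G ∈ P n ∧ ∃ C, Rep G C ∧ (C.card : ℝ) < m} : Set (SimpleGraph (Fin n))).ncard ≤
      n ^ n + ∑ C ∈ univ.filter (fun C : Finset (Fin n) => (C.card : ℝ) < m),
        (P C.card).ncard * n ^ (n - C.card) := by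
  let T0 : Finset (SimpleGraph (Fin n)) := univ.image (fun p : Fin n → Fin n => GG ⊥ p)
  have hsub : ({G | G ∈ P n ∧ ∃ C, Rep G C ∧ (C.card : ℝ) < m} : Set (SimpleGraph (Fin n))) ⊆
      ((T0 ∪ (univ.filter (fun C : Finset (Fin n) => (C.card : ℝ) < m)).biUnion (TC P) :
        Finset (SimpleGraph (Fin n))) : Set (SimpleGraph (Fin n))) := by
    rintro G ⟨hG, C, ⟨K, p, hp, hGG, hK⟩, hC⟩
    rw [Finset.mem_coe, mem_union]
    rcases hK with ⟨hK, -⟩ | ⟨v, -, hK⟩
    · right
      rw [mem_biUnion]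
      refine ⟨C, by simpa using hC, ?_⟩
      unfold TC
      rw [mem_image]
      have h1 := hcore P hP n K C p hK hp (hGG ▸ hG) C.equivFin.symm
      refine ⟨(K.comap (em C), p), ?_, ?_⟩
      · rw [mem_product]
        refine ⟨?_, ?_⟩
        · rw [Set.Finite.mem_toFinset]
          exact h1
        · unfold FX
          rw [Fintype.mem_piFinset]
          intro x
          by_cases hx : x ∈ C
          · rw [if_pos hx, mem_singleton]
            exact hp.1 x hx
          · rw [if_neg hx]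
            exact mem_univ _
      · have h2 : (K.comap (em C)).map (em C) = K := by
          ext x y
          rw [SimpleGraph.map_adj]
          constructor
          · rintro ⟨i, j, hij, rfl, rfl⟩
            exact hij
          · intro hxy
            obtain ⟨hx, hy⟩ := hK.1 x y hxy
            obtain ⟨i, rfl⟩ := em_surj C x hx
            obtain ⟨j, rfl⟩ := em_surj C y hy
            exact ⟨i, j, hxy, rfl, rfl⟩
        show GG ((K.comap (em C)).map (em C)) p = G
        rw [h2, hGG]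
    · left
      rw [mem_image]
      exact ⟨p, mem_univ _, by rw [hGG, hK]⟩
  have h1 := Set.ncard_le_ncard hsub (Set.toFinite _)
  rw [Set.ncard_coe_finset] at h1
  refine h1.trans ((card_union_le _ _).trans ?_)
  refine Nat.add_le_add ?_ ?_
  · refine card_image_le.trans ?_
    rw [card_univ, Fintype.card_fun, Fintype.card_fin]
  · refine card_biUnion_le.trans ?_
    exact sum_le_sum fun C _ => card_TC P C

theorem pow_le_fact_exp (n k : ℕ) : (n : ℝ) ^ k ≤ k.factorial * Real.exp n := by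
  have h := Real.pow_div_factorial_le_exp (n : ℝ) (Nat.cast_nonneg n) k
  rwa [div_le_iff₀ (by positivity), mul_comm] at h

theorem choose_bound (n c : ℕ) (hc : c ≤ n) :
    (n.choose c : ℝ) * (c.factorial * (n : ℝ) ^ (n - c)) ≤ n.factorial * Real.exp n := by
  have h1 : ((n.choose c : ℕ) : ℝ) * c.factorial * (n - c).factorial = n.factorial := by
    exact_mod_cast Nat.choose_mul_factorial_mul_factorial hc
  calc (n.choose c : ℝ) * (c.factorial * (n : ℝ) ^ (n - c))
      ≤ (n.choose c : ℝ) * (c.factorial * ((n - c).factorial * Real.exp n)) := by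
        gcongr
        exact pow_le_fact_exp n (n - c)
    _ = ((n.choose c : ℕ) : ℝ) * c.factorial * (n - c).factorial * Real.exp n := by ring
    _ = _ := by rw [h1]

theorem dens_nonneg (P : (n : ℕ) → Set (SimpleGraph (Fin n))) (n : ℕ) : 0 ≤ dens P n := by
  unfold Pool.Agent.N375.RF.dens; positivity

theorem ncard_eq (P : (n : ℕ) → Set (SimpleGraph (Fin n))) (n : ℕ) :
    ((P n).ncard : ℝ) = dens P n * n.factorial := by
  unfold Pool.Agent.N375.RF.dens
  field_simp

theorem smallCore (h : StCore) : StSmallCore := by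
  intro P hP γ hγ hgr
  have hγ0 : 0 < γ := (Real.exp_pos 1).trans hγ
  have hlog : 1 < Real.log γ := by
    rw [← Real.log_exp 1]
    exact Real.log_lt_log (Real.exp_pos 1) hγ
  obtain ⟨δ, hδ⟩ : ∃ δ : ℝ, δ = (Real.log γ - 1) / 3 := ⟨_, rfl⟩
  have hδ0 : 0 < δ := by rw [hδ]; linarith
  obtain ⟨b, hb⟩ : ∃ b : ℝ, b = Real.log (γ + 1) := ⟨_, rfl⟩
  have hb0 : 0 < b := by rw [hb]; exact Real.log_pos (by linarith)
  have hbe : Real.exp b = γ + 1 := by rw [hb, Real.exp_log (by linarith)]
  -- bounds for the density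
  have hγ' : Real.exp (1 + 2 * δ) < γ := by
    rw [← Real.lt_log_iff_exp_lt hγ0]
    rw [hδ]
    linarith
  have ev1 := hgr.eventually (lt_mem_nhds hγ')
  have ev2 := hgr.eventually (gt_mem_nhds (show γ < γ + 1 by linarith))
  obtain ⟨n1, hn1⟩ := Filter.eventually_atTop.1 (ev1.and ev2)
  obtain ⟨D, hD⟩ : ∃ D : ℝ, D = 1 + ∑ c ∈ range (n1 + 1), dens P c := ⟨_, rfl⟩
  have hD1 : 1 ≤ D := by
    rw [hD]
    have : 0 ≤ ∑ c ∈ range (n1 + 1), dens P c := sum_nonneg fun c _ => dens_nonneg P c
    linarith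
  have hpow : ∀ n : ℕ, 1 ≤ n → (dens P n ^ (1 / (n : ℝ))) ^ n = dens P n := by
    intro n hn
    rw [one_div]
    exact Real.rpow_inv_natCast_pow (dens_nonneg P n) (by omega)
  have hup : ∀ c : ℕ, dens P c ≤ D * Real.exp (b * c) := by
    intro c
    rcases Nat.lt_or_ge c (n1 + 1) with hc | hc
    · have h1 : dens P c ≤ ∑ c ∈ range (n1 + 1), dens P c :=
        single_le_sum (f := fun c => dens P c) (fun c _ => dens_nonneg P c) (mem_range.2 hc)
      have h2 : (1 : ℝ) ≤ Real.exp (b * c) := Real.one_le_exp (by positivity)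
      have h3 : dens P c ≤ D := by rw [hD]; linarith
      nlinarith
    · have h1 := (hn1 c (by omega)).2
      have h2 : dens P c ≤ (γ + 1) ^ c := by
        rw [← hpow c (by omega)]
        exact pow_le_pow_left₀ (Real.rpow_nonneg (dens_nonneg P c) _) h1.le c
      have h3 : (γ + 1) ^ c = Real.exp (b * c) := by
        rw [← hbe, ← Real.exp_nat_mul, mul_comm]
      rw [h3] at h2
      have h4 : 0 < Real.exp (b * c) := Real.exp_pos _
      nlinarith
  have hlow : ∀ n : ℕ, n1 + 1 ≤ n → Real.exp ((1 + 2 * δ) * n) ≤ dens P n := by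
    intro n hn
    have h1 := (hn1 n (by omega)).1
    rw [← hpow n (by omega)]
    have h3 : Real.exp ((1 + 2 * δ) * n) = Real.exp (1 + 2 * δ) ^ n := by
      rw [← Real.exp_nat_mul, mul_comm]
    rw [h3]
    exact pow_le_pow_left₀ (Real.exp_pos _).le h1.le n
  obtain ⟨n2, hn2⟩ := exists_nat_ge (6 * (1 + 2 * D) / δ ^ 3)
  refine ⟨δ / b, by positivity, max (n1 + 1) n2, fun n hn => ?_⟩
  have hnn1 : n1 + 1 ≤ n := (le_max_left _ _).trans hn
  have hnn2 : (6 * (1 + 2 * D) / δ ^ 3) ≤ n :=
    hn2.trans (by exact_mod_cast (le_max_right _ _).trans hn)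
  have hn0 : (1 : ℝ) ≤ n := by
    have : 1 ≤ n := by omega
    exact_mod_cast this
  have hcount := count h P hP n (δ / b * n)
  have hcount' : ((({G | G ∈ P n ∧ ∃ C, Rep G C ∧ (C.card : ℝ) < δ / b * n} :
      Set (SimpleGraph (Fin n))).ncard : ℕ) : ℝ) ≤
      (n : ℝ) ^ n + ∑ C ∈ univ.filter (fun C : Finset (Fin n) => (C.card : ℝ) < δ / b * n),
        ((P C.card).ncard : ℝ) * (n : ℝ) ^ (n - C.card) := by
    exact_mod_cast hcount
  have hterm : ∀ C ∈ univ.filter (fun C : Finset (Fin n) => (C.card : ℝ) < δ / b * n),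
      ((P C.card).ncard : ℝ) * (n : ℝ) ^ (n - C.card) ≤
        D * Real.exp (δ * n) * (C.card.factorial * (n : ℝ) ^ (n - C.card)) := by
    intro C hC
    rw [mem_filter] at hC
    have h1 : b * (C.card : ℝ) ≤ δ * n := by
      have := hC.2
      rw [div_mul_eq_mul_div, lt_div_iff₀ hb0] at this
      linarith
    have h2 : dens P C.card ≤ D * Real.exp (δ * n) := by
      refine (hup C.card).trans ?_
      gcongr
    rw [ncard_eq]
    calc dens P C.card * (C.card.factorial : ℝ) * (n : ℝ) ^ (n - C.card)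
        = dens P C.card * ((C.card.factorial : ℝ) * (n : ℝ) ^ (n - C.card)) := by ring
      _ ≤ _ := by gcongr
  have hsum : ∑ C ∈ univ.filter (fun C : Finset (Fin n) => (C.card : ℝ) < δ / b * n),
      ((P C.card).ncard : ℝ) * (n : ℝ) ^ (n - C.card) ≤
      D * Real.exp (δ * n) * (((n : ℝ) + 1) * (n.factorial * Real.exp n)) := by
    refine (sum_le_sum hterm).trans ?_
    rw [← mul_sum]
    refine mul_le_mul_of_nonneg_left ?_ (by positivity)
    calc ∑ C ∈ univ.filter (fun C : Finset (Fin n) => (C.card : ℝ) < δ / b * n),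
          ((C.card.factorial : ℝ) * (n : ℝ) ^ (n - C.card))
        ≤ ∑ C ∈ (univ : Finset (Fin n)).powerset,
          ((C.card.factorial : ℝ) * (n : ℝ) ^ (n - C.card)) := by
          refine sum_le_sum_of_subset_of_nonneg (fun C _ => by simp) fun C _ _ => by positivity
      _ = ∑ c ∈ range (n + 1), (n.choose c : ℝ) * ((c.factorial : ℝ) * (n : ℝ) ^ (n - c)) := by
          rw [Finset.sum_powerset_apply_card
            (fun c => ((c.factorial : ℝ) * (n : ℝ) ^ (n - c))), card_univ, Fintype.card_fin]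
          simp only [nsmul_eq_mul]
      _ ≤ ∑ c ∈ range (n + 1), ((n.factorial : ℝ) * Real.exp n) :=
          sum_le_sum fun c hc => choose_bound n c (by rw [mem_range] at hc; omega)
      _ = _ := by
          rw [sum_const, card_range, nsmul_eq_mul]
          push_cast
          ring
  have htot : ((({G | G ∈ P n ∧ ∃ C, Rep G C ∧ (C.card : ℝ) < δ / b * n} :
      Set (SimpleGraph (Fin n))).ncard : ℕ) : ℝ) ≤
      (n.factorial * Real.exp n) * (1 + D * Real.exp (δ * n) * ((n : ℝ) + 1)) := by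
    have := pow_le_fact_exp n n
    linarith
  refine htot.trans ?_
  have hPn : (n.factorial : ℝ) * Real.exp n * Real.exp (δ * n) * Real.exp (δ * n) ≤
      ((P n).ncard : ℝ) := by
    rw [ncard_eq]
    have h1 := hlow n hnn1
    have h2 : Real.exp ((1 + 2 * δ) * n) =
        Real.exp n * Real.exp (δ * n) * Real.exp (δ * n) := by
      rw [← Real.exp_add, ← Real.exp_add]
      congr 1
      ring
    rw [h2] at h1
    calc (n.factorial : ℝ) * Real.exp n * Real.exp (δ * n) * Real.exp (δ * n)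
        = (Real.exp n * Real.exp (δ * n) * Real.exp (δ * n)) * (n.factorial : ℝ) := by ring
      _ ≤ _ := by gcongr
  have hexp : (n : ℝ) * (1 + D * ((n : ℝ) + 1)) ≤ Real.exp (δ * n) := by
    have h1 := Real.pow_div_factorial_le_exp (δ * n) (by positivity) 3
    have h2 : (6 * (1 + 2 * D)) ≤ n * δ ^ 3 := by
      rwa [div_le_iff₀ (by positivity)] at hnn2
    have h3 : (n : ℝ) * (1 + D * ((n : ℝ) + 1)) ≤ (n : ℝ) ^ 2 * (1 + 2 * D) := by
      nlinarith [mul_nonneg (show (0 : ℝ) ≤ D by linarith) (show (0 : ℝ) ≤ n by linarith),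
        mul_nonneg (show (0 : ℝ) ≤ n by linarith) (show (0 : ℝ) ≤ (n : ℝ) - 1 by linarith),
        mul_nonneg (mul_nonneg (show (0 : ℝ) ≤ D by linarith) (show (0 : ℝ) ≤ n by linarith))
          (show (0 : ℝ) ≤ (n : ℝ) - 1 by linarith)]
    refine h3.trans (le_trans ?_ h1)
    have h4 : ((3 : ℕ).factorial : ℝ) = 6 := by norm_num [Nat.factorial]
    rw [h4, le_div_iff₀ (by norm_num)]
    nlinarith [mul_le_mul_of_nonneg_left h2 (sq_nonneg (n : ℝ))]
  have hE1 : 1 ≤ Real.exp (δ * n) := Real.one_le_exp (by positivity)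
  obtain ⟨E, hE⟩ : ∃ E : ℝ, E = Real.exp (δ * n) := ⟨_, rfl⟩
  obtain ⟨F, hF⟩ : ∃ F : ℝ, F = (n.factorial : ℝ) * Real.exp n := ⟨_, rfl⟩
  have hF0 : 0 ≤ F := by rw [hF]; positivity
  rw [← hE] at hexp hE1 hPn ⊢
  rw [← hF] at hPn ⊢
  have hn0' : (0 : ℝ) < n := by linarith
  rw [one_div, inv_mul_eq_div, le_div_iff₀ hn0']
  calc F * (1 + D * E * ((n : ℝ) + 1)) * n ≤ F * (E * (1 + D * ((n : ℝ) + 1))) * n := by
        have : 1 + D * E * ((n : ℝ) + 1) ≤ E * (1 + D * ((n : ℝ) + 1)) := by
          nlinarith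
        gcongr
    _ = F * E * (n * (1 + D * ((n : ℝ) + 1))) := by ring
    _ ≤ F * E * E := by gcongr
    _ ≤ _ := hPn

end

end Pool.Agent.N891.RFSmallCore
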