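import Pool.Agent.N352.HP.Stm
import Pool.Agent.N352.HP.FW

/-!
# Project HP: the recursion for palindromes
-/

set_option autoImplicit false

namespace N891HPP

open N352HP

theorem P0 : S_P0 := by
  intro k hk
  refine ⟨fun i => decide (i ≠ 0 ∧ i ≠ k), fun i hi => ?_, fun c => ?_⟩
  · simp only [decide_eq_decide]
    omega
  · simp only [Finset.notMem_empty, false_iff, not_and]
    intro h1 h2 h3
    have h4 := h3 0 (by omega)
    simp only [decide_eq_decide] at h4
    omega

theorem Per.congr {α : Type} {w v : ℕ → α} {n p : ℕ} (h : Per w n p)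
    (e : ∀ i, i < n → v i = w i) : Per v n p := by
  intro i hi
  rw [e _ hi, e _ (by omega)]
  exact h i hi

theorem pb {α : Type} {w : ℕ → α} {k c x : ℕ} (hck : c ≤ k) (h : Per w (k + 1) (k - c))
    (hx : x < c) : Per w (k + 1) (k - x) ↔ Per w (c + 1) (c - x) := by
  have := per_border (w := w) (n := k + 1) (c := c + 1) (x := x + 1) (by omega)
    (by rwa [Nat.add_sub_add_right]) (by omega)
  rwa [Nat.add_sub_add_right, Nat.add_sub_add_right] at this

/-- necessity -/
theorem PN : S_PN := by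
  intro k c C hc1 hck hC ⟨w, hw, hwC⟩
  have hcP : Per w (k + 1) (k - c) := ((hwC c).1 (Finset.mem_insert_self _ _)).2.2
  have hpal : ∀ i, i ≤ c → w (c - i) = w i := by
    intro i hi
    rw [← hw i (by omega), ← hcP (c - i) (by omega)]
    congr 1
    omega
  have hRC : ∀ x, x ∈ C ↔ (1 ≤ x ∧ x < c ∧ Per w (c + 1) (c - x)) := by
    intro x
    constructor
    · intro hx
      have hxc := hC x hx
      obtain ⟨h1, h2, h3⟩ := (hwC x).1 (Finset.mem_insert_of_mem hx)
      exact ⟨h1, hxc, (pb hck.le hcP hxc).1 h3⟩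
    · rintro ⟨h1, h2, h3⟩
      have h4 := (hwC x).2 ⟨h1, by omega, (pb hck.le hcP h2).2 h3⟩
      rcases Finset.mem_insert.1 h4 with h5 | h5
      · omega
      · exact h5
  have claim : ∀ D, 1 ≤ D → D < k → Per w (k + 1) D → k - D ≤ c := by
    intro D h1 h2 h3
    have h4 : k - D ∈ insert c C := (hwC (k - D)).2 ⟨by omega, by omega, by
      rw [show k - (k - D) = D by omega]; exact h3⟩
    rcases Finset.mem_insert.1 h4 with h5 | h5
    · omega
    · exact (hC _ h5).le
  refine ⟨⟨w, hpal, hRC⟩, ?_⟩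
  rcases Nat.lt_or_ge k (2 * c + 2) with hk | hk
  swap
  · exact Or.inl hk
  right
  rcases Nat.lt_or_ge (2 * c) k with hk2 | hk2
  · left
    have hk3 : k = 2 * c + 1 := by omega
    refine ⟨hk3, fun D hD hDlt => ?_⟩
    have hD1 : 1 ≤ D := Nat.pos_of_dvd_of_pos hD (by omega)
    by_contra hcon
    have hPD : Per w (c + 1) D := by
      by_cases h1 : c = D
      · subst h1
        have h2 : c ∣ 1 := (Nat.dvd_add_right dvd_rfl).1 hD
        have h3 : c = 1 := Nat.dvd_one.1 h2
        subst h3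
        intro i hi
        have h4 : i = 0 := by omega
        subst h4
        exact hpal 0 (by omega)
      · have h2 : c - D ∈ C := by
          by_contra h3; exact hcon ⟨h1, h3⟩
        obtain ⟨h4, h5, h6⟩ := (hRC _).1 h2
        rwa [show c - (c - D) = D by omega] at h6
    have hP : Per w (k + 1) (c + 1) := by rwa [show k - c = c + 1 by omega] at hcP
    have := per_ext hP hPD le_rfl hD (by omega)
    have := claim D hD1 (by omega) this
    omega
  · right
    refine ⟨hk2, ?_, ?_⟩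
    · by_cases h : k = 2 * c
      · exact Or.inl h
      · right
        refine (hRC _).2 ⟨by omega, by omega, ?_⟩
        rw [show c - (c - (k - c)) = k - c by omega]
        exact hcP.mono (by omega)
    · intro D hD hDlt hmem
      have hD1 : 1 ≤ D := Nat.pos_of_dvd_of_pos hD (by omega)
      obtain ⟨h4, h5, h6⟩ := (hRC _).1 hmem
      rw [show c - (c - D) = D by omega] at h6
      have := per_ext hcP h6 (by omega) hD (by omega)
      have := claim D hD1 (by omega) this
      omega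

/-- reduction -/
theorem reduce {k c : ℕ} {C : Finset ℕ} (hc1 : 1 ≤ c) (hck : c < k) (hC : ∀ x ∈ C, x < c)
    {u w : ℕ → Bool} (huC : ∀ x, x ∈ C ↔ (1 ≤ x ∧ x < c ∧ Per u (c + 1) (c - x)))
    (h1 : ∀ i, i ≤ k → w (k - i) = w i) (h2 : ∀ i, i < c + 1 → w i = u i)
    (h3 : Per w (k + 1) (k - c))
    (h4 : ∀ b, c < b → b < k → ¬ Per w (k + 1) (k - b)) : RP k (insert c C) := by
  refine ⟨w, h1, fun x => ?_⟩
  rcases lt_trichotomy x c with h | h | h
  · rw [Finset.mem_insert]
    constructor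
    · rintro (h5 | h5)
      · omega
      · obtain ⟨h6, h7, h8⟩ := (huC x).1 h5
        exact ⟨h6, by omega, (pb hck.le h3 h).2 (Per.congr h8 h2)⟩
    · rintro ⟨h5, h6, h7⟩
      right
      exact (huC x).2 ⟨h5, h, Per.congr ((pb hck.le h3 h).1 h7) (fun i hi => (h2 i hi).symm)⟩
  · subst h
    exact ⟨fun _ => ⟨hc1, hck, h3⟩, fun _ => Finset.mem_insert_self _ _⟩
  · constructor
    · intro h5
      rcases Finset.mem_insert.1 h5 with h6 | h6
      · omega
      · have := hC x h6; omega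
    · rintro ⟨_, h6, h7⟩
      exact absurd h7 (h4 x h h6)

/-- a half of the palindrome property -/
theorem pal_half {k : ℕ} {w : ℕ → Bool} {s : ℕ} (hs : 2 * s ≤ k + 1)
    (h : ∀ i, s ≤ i → i ≤ k → w (k - i) = w i) : ∀ i, i ≤ k → w (k - i) = w i := by
  intro i hi
  rcases Nat.lt_or_ge i s with h1 | h1
  · have := h (k - i) (by omega) (by omega)
    rw [show k - (k - i) = i by omega] at this
    exact this.symm
  · exact h i h1 hi

/-- case `k = 2 c + 1` -/
theorem PS2 {c : ℕ} {C : Finset ℕ} (hc1 : 1 ≤ c) (hC : ∀ x ∈ C, x < c) {u : ℕ → Bool}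
    (hu : ∀ i, i ≤ c → u (c - i) = u i)
    (huC : ∀ x, x ∈ C ↔ (1 ≤ x ∧ x < c ∧ Per u (c + 1) (c - x)))
    (hcond : ∀ D, D ∣ c + 1 → D < c + 1 → c ≠ D ∧ c - D ∉ C) : RP (2 * c + 1) (insert c C) := by
  set w : ℕ → Bool := fun i => u (i % (c + 1)) with hw
  have e1 : ∀ i, i < c + 1 → w i = u i := by
    intro i hi
    simp only [hw, Nat.mod_eq_of_lt hi]
  have e2 : ∀ i, w (i + (c + 1)) = w i := by
    intro i
    simp only [hw, Nat.add_mod_right]
  have hP : Per w (2 * c + 1 + 1) (c + 1) := fun i _ => e2 i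
  refine reduce hc1 (by omega) hC huC ?_ e1 ?_ ?_
  · refine pal_half (s := c + 1) (by omega) ?_
    intro i h1 h2
    obtain ⟨j, rfl⟩ : ∃ j, i = j + (c + 1) := ⟨i - (c + 1), by omega⟩
    rw [e2, show 2 * c + 1 - (j + (c + 1)) = c - j by omega, e1 _ (by omega), e1 _ (by omega)]
    exact hu j (by omega)
  · rwa [show 2 * c + 1 - c = c + 1 by omega]
  · intro b hb1 hb2 hb
    have h1 := fw Bool w (2 * c + 1 + 1) (2 * c + 1 - b) (c + 1) (by omega) (by omega) hb hP
      (by omega)
    set D := Nat.gcd (2 * c + 1 - b) (c + 1) with hD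
    have hD1 : 1 ≤ D := Nat.gcd_pos_of_pos_right _ (by omega)
    have hD2 : D ≤ 2 * c + 1 - b := Nat.gcd_le_left _ (by omega)
    have hD3 : D ∣ c + 1 := Nat.gcd_dvd_right _ _
    obtain ⟨h2, h3⟩ := hcond D hD3 (by omega)
    apply h3
    refine (huC _).2 ⟨by omega, by omega, ?_⟩
    rw [show c - (c - D) = D by omega]
    exact Per.congr (h1.mono (by omega)) (fun i hi => (e1 i hi).symm)

/-- case `k ≤ 2 c` -/
theorem PS3 {k c : ℕ} {C : Finset ℕ} (hc1 : 1 ≤ c) (hck : c < k) (hC : ∀ x ∈ C, x < c)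
    {u : ℕ → Bool} (hu : ∀ i, i ≤ c → u (c - i) = u i)
    (huC : ∀ x, x ∈ C ↔ (1 ≤ x ∧ x < c ∧ Per u (c + 1) (c - x)))
    (hk : k ≤ 2 * c) (h1 : k = 2 * c ∨ c - (k - c) ∈ C)
    (h2 : ∀ D, D ∣ k - c → D < k - c → c - D ∉ C) : RP k (insert c C) := by
  obtain ⟨s, rfl⟩ : ∃ s, k = c + s := ⟨k - c, by omega⟩
  rw [Nat.add_sub_cancel_left] at h1 h2
  have hs1 : 1 ≤ s := by omega
  have hsc : s ≤ c := by omega
  have hPs : Per u (c + 1) s := by
    rcases h1 with h | h
    · intro i hi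
      have h3 : i = 0 := by omega
      subst h3
      rw [← hu 0 (by omega)]
      congr 1
      omega
    · have := ((huC _).1 h).2.2
      rwa [show c - (c - s) = s by omega] at this
  set w : ℕ → Bool := fun i => u (i % s) with hw
  have e1 : ∀ i, i < c + 1 → w i = u i := by
    intro i hi
    have h3 := (hPs.mul (i / s)) (i % s) (by rw [Nat.mod_add_div]; exact hi)
    rw [Nat.mod_add_div] at h3
    exact h3.symm
  have e2 : ∀ i, w (i + s) = w i := by
    intro i
    simp only [hw, Nat.add_mod_right]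
  have hP : Per w (c + s + 1) s := fun i _ => e2 i
  refine reduce hc1 hck hC huC ?_ e1 ?_ ?_
  · refine pal_half (s := s) (by omega) ?_
    intro i h3 h4
    obtain ⟨j, rfl⟩ : ∃ j, i = j + s := ⟨i - s, by omega⟩
    rw [e2, show c + s - (j + s) = c - j by omega, e1 _ (by omega), e1 _ (by omega)]
    exact hu j (by omega)
  · rwa [Nat.add_sub_cancel_left]
  · intro b hb1 hb2 hb
    have h3 := fw Bool w (c + s + 1) (c + s - b) s (by omega) hs1 hb hP (by omega)
    set D := Nat.gcd (c + s - b) s with hD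
    have hD1 : 1 ≤ D := Nat.gcd_pos_of_pos_right _ (by omega)
    have hD2 : D ≤ c + s - b := Nat.gcd_le_left _ (by omega)
    have hD3 : D ∣ s := Nat.gcd_dvd_right _ _
    apply h2 D hD3 (by omega)
    refine (huC _).2 ⟨by omega, by omega, ?_⟩
    rw [show c - (c - D) = D by omega]
    exact Per.congr (h3.mono (by omega)) (fun i hi => (e1 i hi).symm)

/-- the word `u x^m u` -/
def Z (c m : ℕ) (u : ℕ → Bool) (x : Bool) (i : ℕ) : Bool :=
  if i < c + 1 then u i else if i < c + 1 + m then x else u (i - (c + 1 + m))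

theorem Z1 {c m : ℕ} {u : ℕ → Bool} {x : Bool} {i : ℕ} (h : i < c + 1) : Z c m u x i = u i :=
  if_pos h

theorem Z2 {c m : ℕ} {u : ℕ → Bool} {x : Bool} {i : ℕ} (h : c + 1 ≤ i) (h' : i < c + 1 + m) :
    Z c m u x i = x := by
  unfold Z
  rw [if_neg (by omega), if_pos h']

theorem Z3 {c m : ℕ} {u : ℕ → Bool} {x : Bool} {i : ℕ} (h : c + 1 + m ≤ i) :
    Z c m u x i = u (i - (c + 1 + m)) := by
  unfold Z
  rw [if_neg (by omega), if_neg (by omega)]

theorem Z_per {c m : ℕ} {u : ℕ → Bool} {x : Bool} :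
    Per (Z c m u x) (2 * c + 1 + m + 1) (c + 1 + m) := by
  intro i hi
  rw [Z1 (show i < c + 1 by omega), Z3 (by omega), Nat.add_sub_cancel]

theorem Z_pal {c m : ℕ} {u : ℕ → Bool} {x : Bool} (hu : ∀ i, i ≤ c → u (c - i) = u i) :
    ∀ i, i ≤ 2 * c + 1 + m → Z c m u x (2 * c + 1 + m - i) = Z c m u x i := by
  intro i hi
  rcases Nat.lt_or_ge i (c + 1) with h | h
  · rw [Z1 h, Z3 (by omega), ← hu i (by omega)]
    congr 1
    omega
  · rcases Nat.lt_or_ge i (c + 1 + m) with h' | h'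
    · rw [Z2 h h', Z2 (by omega) (by omega)]
    · rw [Z3 h', Z1 (by omega), ← hu (i - (c + 1 + m)) (by omega)]
      congr 1
      omega

/-- a longer border -/
theorem longer {c m : ℕ} {u : ℕ → Bool} {x : Bool} {b : ℕ} (hb1 : c < b)
    (hb2 : b < 2 * c + 1 + m)
    (hb : Per (Z c m u x) (2 * c + 1 + m + 1) (2 * c + 1 + m - b)) :
    (∀ i, i ≤ c → u i = x) ∨ ∃ D, 1 ≤ D ∧ D ∣ c + 1 + m ∧ D ≤ c + 1 ∧
      Per (Z c m u x) (2 * c + 1 + m + 1) D := by
  rcases Nat.lt_or_ge (b + 1) (c + 1 + m) with h | h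
  · left
    obtain ⟨j, rfl⟩ : ∃ j, b = c + j := ⟨b - c, by omega⟩
    intro i
    induction i using Nat.strong_induction_on with
    | _ i ih =>
      intro hi
      have h1 := hb i (by omega)
      rw [Z1 (show i < c + 1 by omega)] at h1
      rw [← h1]
      rcases Nat.lt_or_ge i j with h2 | h2
      · exact Z2 (by omega) (by omega)
      · rw [Z3 (by omega), ← ih (i - j) (by omega) (by omega)]
        congr 1
        omega
  · right
    refine ⟨Nat.gcd (2 * c + 1 + m - b) (c + 1 + m), Nat.gcd_pos_of_pos_right _ (by omega),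
      Nat.gcd_dvd_right _ _, ?_, ?_⟩
    · exact (Nat.gcd_le_left _ (by omega)).trans (by omega)
    · exact fw Bool _ _ _ _ (by omega) (by omega) hb Z_per (by omega)

/-- case `2 c + 2 ≤ k` -/
theorem PS1 {c m : ℕ} {C : Finset ℕ} (hc1 : 1 ≤ c) (hm : 1 ≤ m) (hC : ∀ x ∈ C, x < c)
    {u : ℕ → Bool} (hu : ∀ i, i ≤ c → u (c - i) = u i)
    (huC : ∀ x, x ∈ C ↔ (1 ≤ x ∧ x < c ∧ Per u (c + 1) (c - x))) :
    RP (2 * c + 1 + m) (insert c C) := by
  have fin : ∀ x, (∀ b, c < b → b < 2 * c + 1 + m →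
      ¬ Per (Z c m u x) (2 * c + 1 + m + 1) (2 * c + 1 + m - b)) →
      RP (2 * c + 1 + m) (insert c C) := by
    intro x hlong
    refine reduce hc1 (by omega) hC huC (Z_pal hu) (fun i hi => Z1 hi) ?_ hlong
    rw [show 2 * c + 1 + m - c = c + 1 + m by omega]
    exact Z_per
  by_cases hconst : ∀ i, i ≤ c → u i = u 0
  · refine fin (!(u 0)) ?_
    intro b hb1 hb2 hb
    rcases longer hb1 hb2 hb with h | ⟨D, h1, h2, h3, h4⟩
    · have := h 0 (by omega)
      revert this
      cases u 0 <;> simp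
    · have h5 : D ∣ c + 1 + m - D := Nat.dvd_sub h2 dvd_rfl
      have h6 := (h4.dvd h5) (D - 1) (by omega)
      rw [show D - 1 + (c + 1 + m - D) = c + m by omega, Z2 (by omega) (by omega),
        Z1 (by omega), hconst (D - 1) (by omega)] at h6
      revert h6
      cases u 0 <;> simp
  · by_cases hF : ∀ b, c < b → b < 2 * c + 1 + m →
      ¬ Per (Z c m u false) (2 * c + 1 + m + 1) (2 * c + 1 + m - b)
    · exact fin false hF
    by_cases hT : ∀ b, c < b → b < 2 * c + 1 + m →
      ¬ Per (Z c m u true) (2 * c + 1 + m + 1) (2 * c + 1 + m - b)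
    · exact fin true hT
    exfalso
    have key : ∀ x, (¬ ∀ b, c < b → b < 2 * c + 1 + m →
        ¬ Per (Z c m u x) (2 * c + 1 + m + 1) (2 * c + 1 + m - b)) →
        ∃ D, 1 ≤ D ∧ D ∣ c + 1 + m ∧ D ≤ c + 1 ∧ m ≤ D ∧ Per (Z c m u x) (c + 1 + m) D := by
      intro x hx
      push Not at hx
      obtain ⟨b, hb1, hb2, hb⟩ := hx
      rcases longer hb1 hb2 hb with h | ⟨D, h1, h2, h3, h4⟩
      · exact absurd (fun i hi => (h i hi).trans (h 0 (by omega)).symm) hconst
      · refine ⟨D, h1, h2, h3, ?_, h4.mono (by omega)⟩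
        by_contra hD
        apply hconst
        have h5 : ∀ i, i ≤ c → u i = x := by
          intro i hi
          have h6 : D * ((c - i) / D) + (c - i) % D = c - i := Nat.div_add_mod _ _
          have h7 : (c - i) % D < D := Nat.mod_lt _ (by omega)
          have h8 := (h4.mul ((c - i) / D + 1)) i (by
            rw [Nat.mul_succ]; omega)
          rw [Z1 (show i < c + 1 by omega)] at h8
          rw [← h8]
          rw [Nat.mul_succ]
          exact Z2 (by omega) (by omega)
        exact fun i hi => (h5 i hi).trans (h5 0 (by omega)).symm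
    obtain ⟨D, h1, h2, h3, h4, h5⟩ := key false hF
    obtain ⟨D', h1', h2', h3', h4', h5'⟩ := key true hT
    have h6 := two (v := Z c m u false) (v' := Z c m u true) (n := c + 1 + m) (g := m) (by omega)
      (fun i hi => by rw [Z1 (by omega), Z1 (by omega)]) h2 h2' (by omega) (by omega) h1 h1' h4 h4'
      h5 h5' (c + 1) (by omega)
    rw [Z2 le_rfl (by omega), Z2 le_rfl (by omega)] at h6
    exact Bool.false_ne_true h6

theorem PS : S_PS := by
  intro k c C hc1 hck hC ⟨u, hu, huC⟩ hcond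
  rcases hcond with h | ⟨h1, h2⟩ | ⟨h1, h2, h3⟩
  · obtain ⟨m, rfl⟩ : ∃ m, k = 2 * c + 1 + m := ⟨k - 2 * c - 1, by omega⟩
    exact PS1 hc1 (by omega) hC hu huC
  · subst h1
    exact PS2 hc1 hC hu huC h2
  · exact PS3 hc1 hck hC hu huC h1 h2 h3

end N891HPP
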