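import Pool.Agent.N352.HP.Stm
import Pool.Agent.N352.HP.FW

/-!
# Project HP: the recursion for displacement words
-/

set_option autoImplicit false

namespace N891HPW

open N352HP

theorem W0 : S_W0 := by
  intro k hk
  refine ⟨fun i => (k : ℤ) - 1 - 2 * i, ⟨fun i hi => by simp only; omega,
    fun i j hi hj h => by simp only at h; omega⟩, fun c => ?_⟩
  simp only [Finset.notMem_empty, false_iff, not_and]
  intro h1 h2 h3
  have := h3 0 (by omega)
  have e : ((0 + (k - c) : ℕ) : ℤ) = k - c := by omega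
  simp only at this
  omega

theorem DW.surj {n : ℕ} {d : ℕ → ℤ} (h : DW n d) (y : ℤ) (h0 : 0 ≤ y) (hy : y < n) :
    ∃ m : ℕ, m < n ∧ (m : ℤ) + d m = y := by
  let f : Fin n → Fin n := fun i => ⟨((i : ℤ) + d i).toNat, by
    have := h.1 i i.2
    omega⟩
  have hf : Function.Injective f := by
    intro i j hij
    have h1 := congrArg Fin.val hij
    simp only [f] at h1
    have a1 := h.1 i i.2
    have a2 := h.1 j j.2
    exact Fin.ext (h.2 i j i.2 j.2 (by omega))
  obtain ⟨m, hm⟩ := (Finite.injective_iff_surjective.1 hf) ⟨y.toNat, by omega⟩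
  refine ⟨m, m.2, ?_⟩
  have h1 := congrArg Fin.val hm
  simp only [f] at h1
  have a1 := h.1 m m.2
  omega

theorem DW.congr {n : ℕ} {u v : ℕ → ℤ} (h : DW n u) (e : ∀ i, i < n → v i = u i) : DW n v := by
  refine ⟨fun i hi => by rw [e i hi]; exact h.1 i hi, fun i j hi hj hij => ?_⟩
  rw [e i hi, e j hj] at hij
  exact h.2 i j hi hj hij

theorem Per.congr {α : Type} {w v : ℕ → α} {n p : ℕ} (h : Per w n p)
    (e : ∀ i, i < n → v i = w i) : Per v n p := by
  intro i hi
  rw [e _ hi, e _ (by omega)]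
  exact h i hi

/-- concatenation -/
def cat (a : ℕ) (u v : ℕ → ℤ) (i : ℕ) : ℤ := if i < a then u i else v (i - a)

theorem cat_lt {a : ℕ} {u v : ℕ → ℤ} {i : ℕ} (h : i < a) : cat a u v i = u i := if_pos h

theorem cat_add {a : ℕ} {u v : ℕ → ℤ} (j : ℕ) : cat a u v (a + j) = v j := by
  unfold cat
  rw [if_neg (by omega), Nat.add_sub_cancel_left]

theorem dw_cat {a b : ℕ} {u v : ℕ → ℤ} (hu : DW a u) (hv : DW b v) :
    DW (a + b) (cat a u v) := by
  have key : ∀ i, i < a + b → (i < a ∧ cat a u v i = u i) ∨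
      ∃ j, j < b ∧ i = a + j ∧ cat a u v i = v j := by
    intro i hi
    rcases Nat.lt_or_ge i a with h | h
    · exact Or.inl ⟨h, cat_lt h⟩
    · obtain ⟨j, rfl⟩ := Nat.exists_eq_add_of_le h
      exact Or.inr ⟨j, by omega, rfl, cat_add j⟩
  refine ⟨fun i hi => ?_, fun i j hi hj hij => ?_⟩
  · rcases key i hi with ⟨h1, h2⟩ | ⟨m, h1, h2, h3⟩
    · rw [h2]; have := hu.1 i h1; omega
    · rw [h3]; have := hv.1 m h1; omega
  · rcases key i hi with ⟨h1, h2⟩ | ⟨m, h1, h2, h3⟩
    · rcases key j hj with ⟨h1', h2'⟩ | ⟨m', h1', h2', h3'⟩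
      · rw [h2, h2'] at hij; exact hu.2 i j h1 h1' hij
      · rw [h2, h3'] at hij
        have := hu.1 i h1
        have := hv.1 m' h1'
        omega
    · rcases key j hj with ⟨h1', h2'⟩ | ⟨m', h1', h2', h3'⟩
      · rw [h3, h2'] at hij
        have := hu.1 j h1'
        have := hv.1 m h1
        omega
      · rw [h3, h3'] at hij
        have := hv.2 m m' h1 h1' (by omega)
        omega

/-- necessity -/
theorem WN : S_WN := by
  intro k c C hc1 hck hC ⟨d, hd, hdC⟩
  have hcP : Per d k (k - c) := ((hdC c).1 (Finset.mem_insert_self _ _)).2.2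
  have hdc : DW c d := hd.border hck.le hcP
  have hRC : ∀ x, x ∈ C ↔ (1 ≤ x ∧ x < c ∧ Per d c (c - x)) := by
    intro x
    constructor
    · intro hx
      have hxc := hC x hx
      obtain ⟨h1, h2, h3⟩ := (hdC x).1 (Finset.mem_insert_of_mem hx)
      exact ⟨h1, hxc, (per_border hck.le hcP hxc).1 h3⟩
    · rintro ⟨h1, h2, h3⟩
      have h4 := (hdC x).2 ⟨h1, by omega, (per_border hck.le hcP h2).2 h3⟩
      rcases Finset.mem_insert.1 h4 with h5 | h5
      · omega
      · exact h5
  have claim : ∀ D, 1 ≤ D → D < k → Per d k D → k - D ≤ c := by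
    intro D h1 h2 h3
    have h4 : k - D ∈ insert c C := (hdC (k - D)).2 ⟨by omega, by omega, by
      rw [show k - (k - D) = D by omega]; exact h3⟩
    rcases Finset.mem_insert.1 h4 with h5 | h5
    · omega
    · exact (hC _ h5).le
  refine ⟨⟨d, hdc, hRC⟩, ?_⟩
  rcases Nat.lt_or_ge k (2 * c + 2) with hk | hk
  swap
  · exact Or.inl hk
  right
  rcases Nat.lt_or_ge (2 * c) k with hk2 | hk2
  · left
    have hk3 : k = 2 * c + 1 := by omega
    refine ⟨hk3, fun D hD hDlt => ?_⟩
    have hD1 : 1 ≤ D := Nat.pos_of_dvd_of_pos hD (by omega)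
    by_contra hcon
    have hPD : Per d c D := by
      by_cases h1 : c = D
      · intro i hi; omega
      · have h2 : c - D ∈ C := by
          by_contra h3; exact hcon ⟨h1, h3⟩
        obtain ⟨h4, h5, h6⟩ := (hRC _).1 h2
        rwa [show c - (c - D) = D by omega] at h6
    have hP : Per d k (c + 1) := by rwa [show k - c = c + 1 by omega] at hcP
    have hS := hd.sum
    have hSc := hdc.sum
    have hdc0 : d c = 0 := by
      rw [show k = (c + 1) + c by omega, Finset.sum_range_add, Finset.sum_range_succ, hSc] at hS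
      have h1 : ∑ x ∈ Finset.range c, d (c + 1 + x) = ∑ x ∈ Finset.range c, d x := by
        refine Finset.sum_congr rfl fun x hx => ?_
        rw [Finset.mem_range] at hx
        rw [add_comm]
        exact hP x (by omega)
      rw [h1, hSc] at hS
      omega
    -- windows
    have hwin : ∀ a, a + D ≤ c → ∑ x ∈ Finset.range D, d (a + x) = ∑ x ∈ Finset.range D, d x := by
      intro a
      induction a with
      | zero => intro _; simp
      | succ a ih =>
        intro ha
        rw [← ih (by omega)]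
        have h1 : ∑ x ∈ Finset.range (D + 1), d (a + x) =
            ∑ x ∈ Finset.range D, d (a + x) + d (a + D) := Finset.sum_range_succ _ _
        have h2 : ∑ x ∈ Finset.range (D + 1), d (a + x) =
            ∑ x ∈ Finset.range D, d (a + (x + 1)) + d (a + 0) := Finset.sum_range_succ' _ _
        have h3 : d (a + D) = d a := hPD a (by omega)
        have h4 : ∑ x ∈ Finset.range D, d (a + 1 + x) = ∑ x ∈ Finset.range D, d (a + (x + 1)) :=
          Finset.sum_congr rfl fun x _ => by rw [show a + 1 + x = a + (x + 1) by ring]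
        rw [h4]
        rw [add_zero] at h2
        linarith
    have hDc : D ≤ c := by omega
    have hScD : ∑ x ∈ Finset.range (c - D), d x = 0 := by
      refine DW.sum (hdc.border (Nat.sub_le _ _) ?_)
      rwa [show c - (c - D) = D by omega]
    have hSD : ∑ x ∈ Finset.range D, d x = 0 := by
      rw [← hwin (c - D) (by omega)]
      have h1 : ∑ x ∈ Finset.range ((c - D) + D), d x = 0 := by
        rw [Nat.sub_add_cancel hDc]; exact hSc
      rw [Finset.sum_range_add, hScD, zero_add] at h1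
      exact h1
    have hstep : ∀ j, j * D + (D - 1) ≤ c →
        ∑ x ∈ Finset.range (j * D + (D - 1)), d x = ∑ x ∈ Finset.range (D - 1), d x := by
      intro j
      induction j with
      | zero => intro _; simp
      | succ j ih =>
        intro hj
        have e : (j + 1) * D + (D - 1) = (j * D + (D - 1)) + D := by ring
        rw [e] at hj
        rw [e, Finset.sum_range_add, ih (by omega), hwin _ hj, hSD, add_zero]
    obtain ⟨q, hq⟩ := hD
    have hq1 : 2 ≤ q := by
      by_contra h
      have : q = 0 ∨ q = 1 := by omega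
      rcases this with rfl | rfl
      · omega
      · omega
    obtain ⟨r, rfl⟩ := Nat.exists_eq_add_of_le hq1
    have ec : c = (r + 1) * D + (D - 1) := by
      have : D * (2 + r) = (r + 1) * D + D := by ring
      omega
    have hSD1 : ∑ x ∈ Finset.range (D - 1), d x = 0 := by
      rw [← hstep (r + 1) (by omega), ← ec]
      exact hSc
    have hdD : d (D - 1) = 0 := by
      have h1 : ∑ x ∈ Finset.range ((D - 1) + 1), d x = 0 := by
        rw [Nat.sub_add_cancel hD1]; exact hSD
      rw [Finset.sum_range_succ, hSD1, zero_add] at h1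
      exact h1
    have hdcD : d (c - D) = 0 := by
      have h1 := (hPD.mul r) (D - 1) (by
        have : (r + 1) * D = D * r + D := by ring
        omega)
      rw [← hdD, ← h1]
      congr 1
      have : (r + 1) * D = D * r + D := by ring
      omega
    have hPD1 : Per d (c + 1) D := by
      intro i hi
      rcases Nat.lt_or_ge (i + D) c with h | h
      · exact hPD i h
      · have h1 : i + D = c := by omega
        have h2 : i = c - D := by omega
        rw [h1, h2, hdc0, hdcD]
    have := per_ext hP hPD1 le_rfl ⟨_, hq⟩ (by omega)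
    have := claim D hD1 (by omega) this
    omega
  · right
    refine ⟨hk2, ?_, ?_⟩
    · by_cases h : k = 2 * c
      · exact Or.inl h
      · right
        refine (hRC _).2 ⟨by omega, by omega, ?_⟩
        rw [show c - (c - (k - c)) = k - c by omega]
        exact hcP.mono hck.le
    · intro D hD hDlt hmem
      have hD1 : 1 ≤ D := Nat.pos_of_dvd_of_pos hD (by omega)
      obtain ⟨h4, h5, h6⟩ := (hRC _).1 hmem
      rw [show c - (c - D) = D by omega] at h6
      have := per_ext hcP h6 (by omega) hD (by omega)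
      have := claim D hD1 (by omega) this
      omega

/-- reduction -/
theorem reduce {k c : ℕ} {C : Finset ℕ} (hc1 : 1 ≤ c) (hck : c < k) (hC : ∀ x ∈ C, x < c)
    {d d' : ℕ → ℤ} (hdC : ∀ x, x ∈ C ↔ (1 ≤ x ∧ x < c ∧ Per d c (c - x)))
    (h1 : DW k d') (h2 : ∀ i, i < c → d' i = d i) (h3 : Per d' k (k - c))
    (h4 : ∀ b, c < b → b < k → ¬ Per d' k (k - b)) : RW k (insert c C) := by
  refine ⟨d', h1, fun x => ?_⟩
  rcases lt_trichotomy x c with h | h | h
  · rw [Finset.mem_insert]
    constructor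
    · rintro (h5 | h5)
      · omega
      · obtain ⟨h6, h7, h8⟩ := (hdC x).1 h5
        exact ⟨h6, by omega, (per_border hck.le h3 h).2 (Per.congr h8 h2)⟩
    · rintro ⟨h5, h6, h7⟩
      right
      exact (hdC x).2 ⟨h5, h, Per.congr ((per_border hck.le h3 h).1 h7) (fun i hi => (h2 i hi).symm)⟩
  · subst h
    exact ⟨fun _ => ⟨hc1, hck, h3⟩, fun _ => Finset.mem_insert_self _ _⟩
  · constructor
    · intro h5
      rcases Finset.mem_insert.1 h5 with h6 | h6
      · omega
      · have := hC x h6; omega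
    · rintro ⟨_, h6, h7⟩
      exact absurd h7 (h4 x h h6)

/-- case `k = 2 c + 1` -/
theorem WS2 {c : ℕ} {C : Finset ℕ} (hc1 : 1 ≤ c) (hC : ∀ x ∈ C, x < c) {d : ℕ → ℤ}
    (hd : DW c d) (hdC : ∀ x, x ∈ C ↔ (1 ≤ x ∧ x < c ∧ Per d c (c - x)))
    (hcond : ∀ D, D ∣ c + 1 → D < c + 1 → c ≠ D ∧ c - D ∉ C) : RW (2 * c + 1) (insert c C) := by
  have hone : DW 1 (fun _ => 0) := ⟨fun i hi => by simp only; omega, fun i j hi hj _ => by omega⟩
  have hk : 2 * c + 1 = c + (1 + c) := by ring
  set d' := cat c d (cat 1 (fun _ => 0) d) with hd'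
  have e1 : ∀ i, i < c → d' i = d i := fun i hi => cat_lt hi
  have e3 : ∀ i, d' (i + (c + 1)) = d i := by
    intro i
    rw [hd', show i + (c + 1) = c + (1 + i) by ring, cat_add, cat_add]
  have hP : Per d' (2 * c + 1) (c + 1) := by
    intro i hi
    rw [e3, e1 i (by omega)]
  refine reduce hc1 (by omega) hC hdC ?_ e1 ?_ ?_
  · rw [hk]; exact dw_cat hd (dw_cat hone hd)
  · rwa [show 2 * c + 1 - c = c + 1 by omega]
  · intro b hb1 hb2 hb
    have h1 := fw ℤ d' (2 * c + 1) (2 * c + 1 - b) (c + 1) (by omega) (by omega) hb hP (by omega)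
    set D := Nat.gcd (2 * c + 1 - b) (c + 1) with hD
    have hD1 : 1 ≤ D := Nat.gcd_pos_of_pos_right _ (by omega)
    have hD2 : D ≤ 2 * c + 1 - b := Nat.gcd_le_left _ (by omega)
    have hD3 : D ∣ c + 1 := Nat.gcd_dvd_right _ _
    obtain ⟨h2, h3⟩ := hcond D hD3 (by omega)
    apply h3
    refine (hdC _).2 ⟨by omega, by omega, ?_⟩
    rw [show c - (c - D) = D by omega]
    exact Per.congr (h1.mono (by omega)) (fun i hi => (e1 i hi).symm)

/-- case `k ≤ 2 c` -/
theorem WS3 {k c : ℕ} {C : Finset ℕ} (hc1 : 1 ≤ c) (hck : c < k) (hC : ∀ x ∈ C, x < c)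
    {d : ℕ → ℤ} (hd : DW c d) (hdC : ∀ x, x ∈ C ↔ (1 ≤ x ∧ x < c ∧ Per d c (c - x)))
    (hk : k ≤ 2 * c) (h1 : k = 2 * c ∨ c - (k - c) ∈ C)
    (h2 : ∀ D, D ∣ k - c → D < k - c → c - D ∉ C) : RW k (insert c C) := by
  obtain ⟨s, rfl⟩ : ∃ s, k = c + s := ⟨k - c, by omega⟩
  rw [Nat.add_sub_cancel_left] at h1 h2
  have hs1 : 1 ≤ s := by omega
  have hsc : s ≤ c := by omega
  have hPs : Per d c s := by
    rcases h1 with h | h
    · intro i hi; omega
    · have := ((hdC _).1 h).2.2
      rwa [show c - (c - s) = s by omega] at this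
  set d' : ℕ → ℤ := fun i => d (i % s) with hd'
  have e1 : ∀ i, i < c → d' i = d i := by
    intro i hi
    have h3 := (hPs.mul (i / s)) (i % s) (by rw [Nat.mod_add_div]; exact hi)
    rw [Nat.mod_add_div] at h3
    exact h3.symm
  have e2 : ∀ i, d' (i + s) = d' i := by
    intro i
    simp only [hd', Nat.add_mod_right]
  have hP : Per d' (c + s) s := fun i _ => e2 i
  have val : ∀ i, i < c + s → s ≤ i → ∃ j, j < c ∧ i = j + s ∧ d' i = d j := by
    intro i hi hsi
    refine ⟨i - s, by omega, by omega, ?_⟩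
    have h3 := e2 (i - s)
    rw [show i - s + s = i by omega] at h3
    rw [h3, e1 _ (by omega)]
  have hDW : DW (c + s) d' := by
    refine ⟨fun i hi => ?_, ?_⟩
    · rcases Nat.lt_or_ge i s with h | h
      · rw [e1 i (by omega)]
        have := hd.1 i (by omega)
        omega
      · obtain ⟨j, hj, hij, hv⟩ := val i hi h
        rw [hv]
        have := hd.1 j hj
        omega
    · -- injectivity
      have mixed : ∀ i j, i < s → c ≤ j → j < c + s → (i : ℤ) + d' i = j + d' j → False := by
        intro i j hi hj hjk hij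
        obtain ⟨m, hm, hjm, hv⟩ := val j hjk (by omega)
        rw [e1 i (by omega), hv] at hij
        have a1 := hd.1 i (by omega)
        have a2 := hd.1 m hm
        have hdb : DW (c - s) d := hd.border (Nat.sub_le _ _) (by
          rwa [show c - (c - s) = s by omega])
        obtain ⟨x, hx, hxy⟩ := DW.surj hdb ((i : ℤ) + d i - s) (by omega) (by omega)
        have h4 : d (x + s) = d x := hPs x (by omega)
        have h5 : i = x + s := hd.2 i (x + s) (by omega) (by omega) (by
          rw [h4]; push_cast; omega)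
        omega
      intro i j hi hj hij
      rcases Nat.lt_or_ge i s with h | h
      · rcases Nat.lt_or_ge j c with h' | h'
        · rw [e1 i (by omega), e1 j h'] at hij
          exact hd.2 i j (by omega) h' hij
        · exact (mixed i j h h' hj hij).elim
      · rcases Nat.lt_or_ge j s with h' | h'
        · rcases Nat.lt_or_ge i c with h'' | h''
          · rw [e1 i h'', e1 j (by omega)] at hij
            exact hd.2 i j h'' (by omega) hij
          · exact (mixed j i h' h'' hi hij.symm).elim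
        · obtain ⟨m, hm, him, hv⟩ := val i hi h
          obtain ⟨m', hm', hjm, hv'⟩ := val j hj h'
          rw [hv, hv'] at hij
          have := hd.2 m m' hm hm' (by omega)
          omega
  refine reduce hc1 hck hC hdC hDW e1 ?_ ?_
  · rwa [Nat.add_sub_cancel_left]
  · intro b hb1 hb2 hb
    have h3 := fw ℤ d' (c + s) (c + s - b) s (by omega) hs1 hb hP (by omega)
    set D := Nat.gcd (c + s - b) s with hD
    have hD1 : 1 ≤ D := Nat.gcd_pos_of_pos_right _ (by omega)
    have hD2 : D ≤ c + s - b := Nat.gcd_le_left _ (by omega)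
    have hD3 : D ∣ s := Nat.gcd_dvd_right _ _
    apply h2 D hD3 (by omega)
    refine (hdC _).2 ⟨by omega, by omega, ?_⟩
    rw [show c - (c - D) = D by omega]
    exact Per.congr (h3.mono (by omega)) (fun i hi => (e1 i hi).symm)

/-- the word `d X d` -/
def Y (c g : ℕ) (d X : ℕ → ℤ) : ℕ → ℤ := cat c d (cat g X d)

theorem Y1 {c g : ℕ} {d X : ℕ → ℤ} {i : ℕ} (h : i < c) : Y c g d X i = d i := cat_lt h

theorem Y2 {c g : ℕ} {d X : ℕ → ℤ} {j : ℕ} (h : j < g) : Y c g d X (c + j) = X j := by
  unfold Y; rw [cat_add, cat_lt h]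

theorem Y3 {c g : ℕ} {d X : ℕ → ℤ} (j : ℕ) : Y c g d X (c + g + j) = d j := by
  unfold Y; rw [add_assoc, cat_add, cat_add]

theorem Y_DW {c g : ℕ} {d X : ℕ → ℤ} (hd : DW c d) (hX : DW g X) :
    DW (2 * c + g) (Y c g d X) := by
  rw [show 2 * c + g = c + (g + c) by ring]
  exact dw_cat hd (dw_cat hX hd)

theorem Y_DWn {c g : ℕ} {d X : ℕ → ℤ} (hd : DW c d) (hX : DW g X) :
    DW (c + g) (Y c g d X) := by
  refine DW.congr (dw_cat hd hX) ?_
  intro i hi
  rcases Nat.lt_or_ge i c with h | h
  · rw [Y1 h, cat_lt h]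
  · obtain ⟨j, rfl⟩ := Nat.exists_eq_add_of_le h
    rw [Y2 (by omega), cat_add]

theorem Y_per {c g : ℕ} {d X : ℕ → ℤ} : Per (Y c g d X) (2 * c + g) (c + g) := by
  intro i hi
  rw [Y1 (show i < c by omega), show i + (c + g) = c + g + i by ring, Y3]

/-- a long border of length at least `c + g` -/
theorem longer {c g : ℕ} {d X : ℕ → ℤ} (hg : 1 ≤ g) {b : ℕ} (hb1 : c + g ≤ b)
    (hb2 : b < 2 * c + g) (hb : Per (Y c g d X) (2 * c + g) (2 * c + g - b)) :
    ∃ D, 1 ≤ D ∧ D ∣ c + g ∧ D ≤ c ∧ Per (Y c g d X) (2 * c + g) D := by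
  refine ⟨Nat.gcd (2 * c + g - b) (c + g), Nat.gcd_pos_of_pos_right _ (by omega),
    Nat.gcd_dvd_right _ _, ?_, ?_⟩
  · exact (Nat.gcd_le_left _ (by omega)).trans (by omega)
  · exact fw ℤ _ _ _ _ (by omega) (by omega) hb Y_per (by omega)

theorem Y_sum {c g : ℕ} {d X : ℕ → ℤ} (hd : DW c d) {m : ℕ} (hm : m ≤ g) :
    ∑ x ∈ Finset.range (c + m), Y c g d X x = ∑ x ∈ Finset.range m, X x := by
  rw [Finset.sum_range_add]
  have h1 : ∑ x ∈ Finset.range c, Y c g d X x = 0 := by
    rw [← hd.sum]
    exact Finset.sum_congr rfl fun x hx => Y1 (Finset.mem_range.1 hx)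
  rw [h1, zero_add]
  exact Finset.sum_congr rfl fun x hx => Y2 (lt_of_lt_of_le (Finset.mem_range.1 hx) hm)

/-- a long border, for an indecomposable middle part -/
theorem long_ind {c g : ℕ} {d X : ℕ → ℤ} (hg : 1 ≤ g) (hd : DW c d) (hX : DW g X)
    (hind : ∀ m, 0 < m → m < g → ∑ x ∈ Finset.range m, X x ≠ 0) {b : ℕ} (hb1 : c < b)
    (hb2 : b < 2 * c + g) (hb : Per (Y c g d X) (2 * c + g) (2 * c + g - b)) :
    ∃ D, 1 ≤ D ∧ g ≤ D ∧ D ∣ c + g ∧ D ≤ c ∧ Per (Y c g d X) (2 * c + g) D := by
  have hbn : c + g ≤ b := by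
    by_contra h
    have h1 := ((Y_DW hd hX).border hb2.le hb).sum
    rw [show b = c + (b - c) by omega, Y_sum hd (by omega)] at h1
    exact hind (b - c) (by omega) (by omega) h1
  obtain ⟨D, h1, h2, h3, h4⟩ := longer hg hbn hb2 hb
  refine ⟨D, h1, ?_, h2, h3, h4⟩
  by_contra h
  have h5 : DW (c + g - D) (Y c g d X) := (Y_DWn hd hX).border (Nat.sub_le _ _) (by
    rw [show c + g - (c + g - D) = D by omega]
    exact h4.mono (by omega))
  have h6 := h5.sum
  rw [show c + g - D = c + (g - D) by omega, Y_sum hd (by omega)] at h6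
  exact hind (g - D) (by omega) (by omega) h6

/-- the first middle part -/
def X1 (g : ℕ) (j : ℕ) : ℤ := if j + 1 < g then 1 else -((g : ℤ) - 1)

/-- the second middle part -/
def X2 (g : ℕ) (j : ℕ) : ℤ := if j = 0 then (g : ℤ) - 1 else -1

theorem X1_DW {g : ℕ} (hg : 2 ≤ g) : DW g (X1 g) := by
  refine ⟨fun i hi => ?_, fun i j hi hj hij => ?_⟩
  · unfold X1; split_ifs <;> omega
  · unfold X1 at hij; split_ifs at hij <;> omega

theorem X2_DW {g : ℕ} (hg : 2 ≤ g) : DW g (X2 g) := by
  refine ⟨fun i hi => ?_, fun i j hi hj hij => ?_⟩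
  · unfold X2; split_ifs <;> omega
  · unfold X2 at hij; split_ifs at hij <;> omega

theorem X1_ind {g : ℕ} : ∀ m, 0 < m → m < g → ∑ x ∈ Finset.range m, X1 g x ≠ 0 := by
  intro m hm hmg
  have h1 : ∑ x ∈ Finset.range m, X1 g x = ∑ x ∈ Finset.range m, (1 : ℤ) := by
    refine Finset.sum_congr rfl fun x hx => ?_
    rw [Finset.mem_range] at hx
    unfold X1
    rw [if_pos (by omega)]
  rw [h1, Finset.sum_const, Finset.card_range, nsmul_eq_mul, mul_one]
  omega

theorem X2_ind {g : ℕ} : ∀ m, 0 < m → m < g → ∑ x ∈ Finset.range m, X2 g x ≠ 0 := by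
  intro m hm hmg
  obtain ⟨m', rfl⟩ : ∃ m', m = m' + 1 := ⟨m - 1, by omega⟩
  rw [Finset.sum_range_succ']
  have h1 : ∑ x ∈ Finset.range m', X2 g (x + 1) = ∑ x ∈ Finset.range m', (-1 : ℤ) := by
    refine Finset.sum_congr rfl fun x _ => ?_
    unfold X2
    rw [if_neg (by omega)]
  rw [h1, Finset.sum_const, Finset.card_range, nsmul_eq_mul]
  unfold X2
  rw [if_pos rfl]
  omega

/-- case `2 c + 2 ≤ k` -/
theorem WS1 {c g : ℕ} {C : Finset ℕ} (hc1 : 1 ≤ c) (hg : 2 ≤ g) (hC : ∀ x ∈ C, x < c) {d : ℕ → ℤ}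
    (hd : DW c d) (hdC : ∀ x, x ∈ C ↔ (1 ≤ x ∧ x < c ∧ Per d c (c - x))) :
    RW (2 * c + g) (insert c C) := by
  have fin : ∀ X, DW g X → (∀ b, c < b → b < 2 * c + g →
      ¬ Per (Y c g d X) (2 * c + g) (2 * c + g - b)) → RW (2 * c + g) (insert c C) := by
    intro X hX hlong
    refine reduce hc1 (by omega) hC hdC (Y_DW hd hX) (fun i hi => Y1 hi) ?_ hlong
    rw [show 2 * c + g - c = c + g by omega]
    exact Y_per
  by_cases h1 : ∀ b, c < b → b < 2 * c + g →
      ¬ Per (Y c g d (X1 g)) (2 * c + g) (2 * c + g - b)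
  · exact fin _ (X1_DW hg) h1
  push Not at h1
  obtain ⟨b, hb1, hb2, hb⟩ := h1
  obtain ⟨D, hD1, hDg, hDn, hDc, hPD⟩ := long_ind (by omega) hd (X1_DW hg) X1_ind hb1 hb2 hb
  have hPDn : Per (Y c g d (X1 g)) (c + g) D := hPD.mono (by omega)
  -- comparison
  have comp : ∀ X : ℕ → ℤ, X 0 ≠ 1 → ∀ D', 1 ≤ D' → g ≤ D' → D' ∣ c + g → D' ≤ c →
      Per (Y c g d X) (2 * c + g) D' → False := by
    intro X hX0 D' h1 h2 h3 h4 h5
    have h6 := two (v := Y c g d (X1 g)) (v' := Y c g d X) (n := c + g) (g := g) (by omega)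
      (fun i hi => by rw [Y1 (by omega), Y1 (by omega)]) hDn h3 (by omega) (by omega) hD1 h1 hDg h2
      hPDn (h5.mono (by omega)) (c + 0) (by omega)
    rw [Y2 (by omega), Y2 (by omega)] at h6
    unfold X1 at h6
    rw [if_pos (by omega)] at h6
    exact hX0 h6.symm
  rcases Nat.lt_or_ge 2 g with hg3 | hg3
  · refine fin _ (X2_DW hg) ?_
    intro b' hb1' hb2' hb'
    obtain ⟨D', h1, h2, h3, h4, h5⟩ := long_ind (by omega) hd (X2_DW hg) X2_ind hb1' hb2' hb'
    refine comp (X2 g) ?_ D' h1 h2 h3 h4 h5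
    unfold X2
    rw [if_pos rfl]
    omega
  · have hg2 : g = 2 := by omega
    subst hg2
    by_cases hz : ∀ i, i < c → d i = 0
    · exfalso
      have h1 := hPDn (c + 1 - D) (by omega)
      rw [show c + 1 - D + D = c + 1 by omega, Y2 (by omega), Y1 (by omega),
        hz _ (by omega)] at h1
      unfold X1 at h1
      rw [if_neg (by omega)] at h1
      omega
    · have hX0 : DW 2 (fun _ => 0) := ⟨fun i hi => by simp only; omega,
        fun i j hi hj h => by simp only at h; omega⟩
      refine fin (fun _ => 0) hX0 ?_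
      intro b' hb1' hb2' hb'
      apply hz
      rcases Nat.lt_or_ge b' (c + 2) with h | h
      · have hbc : 2 * c + 2 - b' = c + 1 := by omega
        rw [hbc] at hb'
        intro i
        induction i with
        | zero =>
          intro hi
          have h1 := hb' 0 (by omega)
          rw [show 0 + (c + 1) = c + 1 by ring, Y2 (by omega), Y1 hi] at h1
          exact h1.symm
        | succ i ih =>
          intro hi
          have h1 := hb' (i + 1) (by omega)
          rw [show i + 1 + (c + 1) = c + 2 + i by ring, Y3, Y1 hi, ih (by omega)] at h1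
          exact h1.symm
      · obtain ⟨D', h1, h2, h3, h4⟩ := longer (by omega) h hb2' hb'
        rcases Nat.lt_or_ge D' 2 with h5 | h5
        · have h6 : D' = 1 := by omega
          subst h6
          have h7 : ∀ i, i ≤ c → Y c 2 d (fun _ => 0) (c - i) = 0 := by
            intro i
            induction i with
            | zero =>
              intro _
              have := Y2 (c := c) (g := 2) (d := d) (X := fun _ => 0) (j := 0) (by omega)
              rw [add_zero] at this
              rw [Nat.sub_zero]; exact this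
            | succ i ih =>
              intro hi
              have h8 := h4 (c - (i + 1)) (by omega)
              rw [show c - (i + 1) + 1 = c - i by omega, ih (by omega)] at h8
              exact h8.symm
          intro i hi
          have h9 := h7 (c - i) (by omega)
          rw [show c - (c - i) = i by omega, Y1 hi] at h9
          exact h9
        · exact (comp (fun _ => 0) (by norm_num) D' h1 h5 h2 h3 h4).elim

theorem WS : S_WS := by
  intro k c C hc1 hck hC ⟨d, hd, hdC⟩ hcond
  rcases hcond with h | ⟨h1, h2⟩ | ⟨h1, h2, h3⟩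
  · obtain ⟨g, rfl⟩ : ∃ g, k = 2 * c + g := ⟨k - 2 * c, by omega⟩
    exact WS1 hc1 (by omega) hC hd hdC
  · subst h1
    exact WS2 hc1 hC hd hdC h2
  · exact WS3 hc1 hck hC hd hdC h1 h2 h3

end N891HPW
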