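import Pool.Agent.N906.KG.Stm

/-!
# Project KG (helper906), part CNTK (helper891): the number of tuples of ideals with bounded gain
-/

set_option autoImplicit false

namespace Pool.Agent.N891.KG

open NumberField IsDedekindDomain Finset Filter Topology Pool.Agent.H691R3 Pool.Agent.W223.AK
open Pool.Agent.N906.NT (Cx cst)
open Pool.Agent.N906.KG

section

variable {K : Type} [Field K] [NumberField K] {n : ℕ}

/-- the logarithm of the norm of the product, as a sum over the primes -/
theorem tl_eq (D : Fin n → Idl K) :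
    tl D = ∑ v ∈ sp D, ((∑ i, D i v : ℕ) : ℝ) * Real.log (Nv v) := by
  classical
  have h1 : ∀ i, len (D i) = ∑ v ∈ sp D, (D i v : ℝ) * Real.log (Nv v) := by
    intro i
    unfold len
    refine Finset.sum_subset ?_ ?_
    · intro v hv
      unfold sp
      rw [mem_biUnion]
      exact ⟨i, mem_univ i, hv⟩
    · intro v _ hv
      rw [Finsupp.notMem_support_iff.1 hv]
      simp
  unfold tl
  simp only [h1]
  rw [Finset.sum_comm]
  refine Finset.sum_congr rfl fun v _ => ?_
  rw [Nat.cast_sum, Finset.sum_mul]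

/-- the radical is at most the gain for squareful tuples -/
theorem tr_le_gl {D : Fin n → Idl K} (hD : Sq D) : tr D ≤ gl D := by
  classical
  unfold gl
  have h1 : tr D + tr D ≤ tl D := by
    rw [tl_eq]
    unfold tr
    rw [← Finset.sum_add_distrib]
    refine Finset.sum_le_sum fun v hv => ?_
    have h2 : 2 ≤ ∑ i, D i v := by
      have h3 : ∑ i, D i v ≠ 0 := by
        intro h4
        unfold sp at hv
        rw [mem_biUnion] at hv
        obtain ⟨i, _, hi⟩ := hv
        exact (Finsupp.mem_support_iff.1 hi) ((Finset.sum_eq_zero_iff.1 h4) i (mem_univ i))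
      have h5 := hD v
      omega
    have h6 : (2 : ℝ) ≤ ((∑ i, D i v : ℕ) : ℝ) := by exact_mod_cast h2
    have h7 := log_Nv_pos v
    nlinarith
  linarith

end

theorem cntk (K : Type) [Field K] [NumberField K] (h : S_GUPK K) : S_CNTK K := by
  intro n Δ r t η hC hη
  obtain ⟨u₀, hu₀, _, H⟩ := h n Δ r t 1 0 1 hC one_pos le_rfl (by norm_num) one_pos
  obtain ⟨u, hu⟩ : ∃ u, u = min (u₀ / 2) η := ⟨_, rfl⟩
  have hu1 : 0 < u := by
    rw [hu]
    exact lt_min (by linarith) hη
  have hu2 : u < u₀ := by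
    rw [hu]
    exact (min_le_left _ _).trans_lt (by linarith)
  have hu3 : u ≤ η := by
    rw [hu]
    exact min_le_right _ _
  refine ⟨Real.exp ((1 + 1) * 1 * t / (r * (r * (u * Real.log (1 / u))) ^ r)), Real.exp_pos _,
    fun G F hG hF => ?_⟩
  have h1 := H u hu1 hu2 F fun D hD => ⟨(hF D hD).1, (hF D hD).2.1⟩
  have h2 : (F.card : ℝ) * Real.exp (-((1 + η) * G)) ≤
      ∑ D ∈ F, (1 : ℝ) ^ om D * Real.exp (-(u * gl D) - (1 - 0 * u) * tr D) := by
    rw [← nsmul_eq_mul]
    refine Finset.card_nsmul_le_sum _ _ _ fun D hD => ?_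
    obtain ⟨_, h3, h4⟩ := hF D hD
    rw [one_pow, one_mul]
    refine Real.exp_le_exp.2 ?_
    have h5 := tr_le_gl h3
    have h6 : u * gl D + gl D ≤ (1 + η) * G := by
      have h7 : (1 + u) * gl D ≤ (1 + u) * G := mul_le_mul_of_nonneg_left h4 (by linarith)
      have h8 : (1 + u) * G ≤ (1 + η) * G := mul_le_mul_of_nonneg_right (by linarith) hG
      linarith
    linarith
  have h3 := h2.trans h1
  have h4 : (F.card : ℝ) = (F.card : ℝ) * Real.exp (-((1 + η) * G)) * Real.exp ((1 + η) * G) := by
    rw [mul_assoc, ← Real.exp_add, neg_add_cancel, Real.exp_zero, mul_one]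
  rw [h4]
  exact mul_le_mul_of_nonneg_right h3 (Real.exp_pos _).le

end Pool.Agent.N891.KG
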